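import Pool.Agent.R684.FP.Main

/-!
# Groups generated by `H` and `U` with alternating normal forms over a subgroup `K` of `H` normalizing `U`
-/

set_option autoImplicit false

namespace Pool.Agent.U643.GE

open Pool.Agent.Y110.FJ Pool.Agent.R684.FP
open Pool.Agent.R941.FJ (C_equiv C_le)

variable {C : ∀ (G : Type) [Group G], Prop}

/-- alternating products `u₁ h₁ u₂ h₂ ... u_n` with nontrivial `u_i` in `U` and `h_i` in `H` outside `K` -/
inductive Alt {G : Type} [Group G] (H U K : Subgroup G) : G → Prop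
  | single (u : G) : u ∈ U → u ≠ 1 → Alt H U K u
  | app (w h w' : G) : Alt H U K w → h ∈ H → h ∉ K → Alt H U K w' → Alt H U K (w * h * w')

section am

variable {G : Type} [Group G] (H U K : Subgroup G)

/-- the representatives -/
noncomputable def rp (q : H ⧸ K.subgroupOf H) : G := (Quotient.out q : H).1

/-- the conjugates of `U` -/
noncomputable def Au (q : H ⧸ K.subgroupOf H) : Subgroup G :=
  U.map (MulAut.conj (rp H K q)).toMonoidHom

theorem mem_Au {q : H ⧸ K.subgroupOf H} {x : G} :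
    x ∈ Au H U K q ↔ (rp H K q)⁻¹ * x * rp H K q ∈ U := by
  rw [Au]
  constructor
  · rintro ⟨u, hu, rfl⟩
    have : (rp H K q)⁻¹ * ((MulAut.conj (rp H K q)).toMonoidHom u) * rp H K q = u := by
      show (rp H K q)⁻¹ * (rp H K q * u * (rp H K q)⁻¹) * rp H K q = u
      group
    rw [this]
    exact hu
  · intro h
    refine ⟨_, h, ?_⟩
    show rp H K q * ((rp H K q)⁻¹ * x * rp H K q) * (rp H K q)⁻¹ = x
    group

theorem rp_mem (q : H ⧸ K.subgroupOf H) : rp H K q ∈ H := (Quotient.out q : H).2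

theorem rp_ne {q q' : H ⧸ K.subgroupOf H} (h : q ≠ q') : (rp H K q)⁻¹ * rp H K q' ∉ K := by
  intro h1
  apply h
  rw [← Quotient.out_eq q, ← Quotient.out_eq q']
  exact QuotientGroup.eq.2 (Subgroup.mem_subgroupOf.2 h1)

variable {H U K}

theorem mem_Au_mk (hKU : ∀ k ∈ K, ∀ u ∈ U, k * u * k⁻¹ ∈ U) (h : H) {x : G} :
    x ∈ Au H U K (QuotientGroup.mk h) ↔ (h : G)⁻¹ * x * h ∈ U := by
  rw [mem_Au]
  have h1 : (Quotient.out (QuotientGroup.mk h : H ⧸ K.subgroupOf H))⁻¹ * h ∈ K.subgroupOf H :=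
    QuotientGroup.eq.1 (Quotient.out_eq _)
  obtain ⟨r, hr⟩ : ∃ r, r = rp H K (QuotientGroup.mk h) := ⟨_, rfl⟩
  have h2 : r⁻¹ * h ∈ K := by
    rw [hr]
    exact Subgroup.mem_subgroupOf.1 h1
  rw [← hr]
  constructor
  · intro h3
    have h4 := hKU _ (inv_mem h2) _ h3
    have h5 : (r⁻¹ * h)⁻¹ * (r⁻¹ * x * r) * ((r⁻¹ * h)⁻¹)⁻¹ = (h : G)⁻¹ * x * h := by group
    rwa [h5] at h4
  · intro h3
    have h4 := hKU _ h2 _ h3
    have h5 : (r⁻¹ * h) * ((h : G)⁻¹ * x * h) * (r⁻¹ * h)⁻¹ = r⁻¹ * x * r := by group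
    rwa [h5] at h4

/-- the normal subgroup -/
noncomputable def NN (H U K : Subgroup G) : Subgroup G := ⨆ q, Au H U K q

theorem U_le_NN (hKU : ∀ k ∈ K, ∀ u ∈ U, k * u * k⁻¹ ∈ U) : U ≤ NN H U K := by
  intro u hu
  refine le_iSup (Au H U K) (QuotientGroup.mk 1) ?_
  rw [mem_Au_mk hKU]
  simpa using hu

theorem NN_conj_H (hKU : ∀ k ∈ K, ∀ u ∈ U, k * u * k⁻¹ ∈ U) {h x : G} (hh : h ∈ H)
    (hx : x ∈ NN H U K) : h * x * h⁻¹ ∈ NN H U K := by
  have h1 : NN H U K ≤ (NN H U K).comap (MulAut.conj h).toMonoidHom := by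
    refine iSup_le fun q x hx => ?_
    show h * x * h⁻¹ ∈ NN H U K
    obtain ⟨r, rfl⟩ := QuotientGroup.mk_surjective q
    rw [mem_Au_mk hKU] at hx
    refine le_iSup (Au H U K) (QuotientGroup.mk (⟨h, hh⟩ * r)) ?_
    rw [mem_Au_mk hKU]
    have h2 : ((⟨h, hh⟩ * r : H) : G)⁻¹ * (h * x * h⁻¹) * ((⟨h, hh⟩ * r : H) : G) =
        (r : G)⁻¹ * x * r := by
      rw [Subgroup.coe_mul]
      group
    rwa [h2]
  exact h1 hx

theorem NN_normal (hgen : H ⊔ U = ⊤) (hKU : ∀ k ∈ K, ∀ u ∈ U, k * u * k⁻¹ ∈ U) :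
    (NN H U K).Normal := by
  rw [← Subgroup.normalizer_eq_top_iff, eq_top_iff, ← hgen, sup_le_iff]
  constructor
  · intro h hh
    rw [Subgroup.mem_normalizer_iff]
    intro x
    constructor
    · exact fun hx => NN_conj_H hKU hh hx
    · intro hx
      have := NN_conj_H hKU (inv_mem hh) hx
      have h2 : h⁻¹ * (h * x * h⁻¹) * h⁻¹⁻¹ = x := by group
      rwa [h2] at this
  · exact (U_le_NN hKU).trans Subgroup.le_normalizer

theorem ex_dec (hgen : H ⊔ U = ⊤) (hKU : ∀ k ∈ K, ∀ u ∈ U, k * u * k⁻¹ ∈ U) (g : G) :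
    ∃ h ∈ H, ∃ n ∈ NN H U K, g = h * n := by
  have hN := NN_normal hgen hKU
  have h1 : g ∈ NN H U K ⊔ H := by
    have h2 : H ⊔ U ≤ NN H U K ⊔ H :=
      sup_le le_sup_right ((U_le_NN hKU).trans le_sup_left)
    rw [hgen] at h2
    exact h2 (Subgroup.mem_top g)
  obtain ⟨n, hn, h, hh, rfl⟩ := Pool.Agent.R941.FJ.mem_sup_normal.1 h1
  refine ⟨h, hh, h⁻¹ * n * h⁻¹⁻¹, hN.conj_mem n hn h⁻¹, ?_⟩
  group

/-- the image of a reduced word -/
theorem word_alt {i j : H ⧸ K.subgroupOf H}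
    (w : Monoid.CoprodI.NeWord (fun q => Au H U K q) i j) :
    ∃ a, Alt H U K a ∧ Monoid.CoprodI.lift (fun q => (Au H U K q).subtype) w.prod =
      rp H K i * a * (rp H K j)⁻¹ := by
  induction w with
  | @singleton i x hx =>
    refine ⟨(rp H K i)⁻¹ * x * rp H K i, Alt.single _ ((mem_Au H U K).1 x.2) ?_, ?_⟩
    · intro h
      apply hx
      apply Subtype.ext
      have h1 : (x : G) = rp H K i * ((rp H K i)⁻¹ * x * rp H K i) * (rp H K i)⁻¹ := by group
      rw [h1, h]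
      simp
    · rw [Monoid.CoprodI.NeWord.prod_singleton, Monoid.CoprodI.lift_of, Subgroup.coe_subtype]
      group
  | @append i j k l w₁ hne w₂ ih₁ ih₂ =>
    obtain ⟨a, ha, h1⟩ := ih₁
    obtain ⟨b, hb, h2⟩ := ih₂
    refine ⟨a * ((rp H K j)⁻¹ * rp H K k) * b,
      Alt.app _ _ _ ha (mul_mem (inv_mem (rp_mem H K j)) (rp_mem H K k)) (rp_ne H K hne) hb, ?_⟩
    rw [Monoid.CoprodI.NeWord.append_prod, map_mul, h1, h2]
    group

theorem lift_alt (x : Monoid.CoprodI (fun q => Au H U K q)) (hx : x ≠ 1) :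
    ∃ h ∈ H, ∃ h' ∈ H, ∃ a, Alt H U K a ∧
      Monoid.CoprodI.lift (fun q => (Au H U K q).subtype) x = h * a * h' := by
  classical
  obtain ⟨w, rfl⟩ : ∃ w : Monoid.CoprodI.Word (fun q => Au H U K q), w.prod = x :=
    ⟨_, Monoid.CoprodI.Word.equiv.symm_apply_apply x⟩
  have hw : w ≠ Monoid.CoprodI.Word.empty := by
    rintro rfl
    exact hx rfl
  obtain ⟨i, j, w', rfl⟩ := Monoid.CoprodI.NeWord.of_word w hw
  obtain ⟨a, ha, h1⟩ := word_alt w'
  exact ⟨_, rp_mem H K i, _, inv_mem (rp_mem H K j), a, ha, h1⟩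

theorem isFreeProd (halt : ∀ w ∈ H, ¬ Alt H U K w) :
    IsFreeProd (NN H U K) (Au H U K) where
  sup := rfl
  inj := by
    rw [injective_iff_map_eq_one]
    intro x hx
    by_contra hne
    obtain ⟨h, hh, h', hh', a, ha, h1⟩ := lift_alt x hne
    rw [hx] at h1
    have h2 : a = h⁻¹ * h'⁻¹ := by
      have h3 : a = h⁻¹ * (h * a * h') * h'⁻¹ := by group
      rw [h3, ← h1]
      group
    exact halt a (h2 ▸ mul_mem (inv_mem hh) (inv_mem hh')) ha

theorem NN_inf (halt : ∀ w ∈ H, ¬ Alt H U K w) {x : G} (hx : x ∈ NN H U K) (hxH : x ∈ H) :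
    x = 1 := by
  have h0 : NN H U K = (Monoid.CoprodI.lift fun q => (Au H U K q).subtype).range := by
    rw [Monoid.CoprodI.range_eq_iSup]
    show ⨆ q, Au H U K q = _
    congr 1
    funext q
    exact ((Au H U K q).range_subtype).symm
  rw [h0] at hx
  obtain ⟨y, rfl⟩ := hx
  by_cases hy : y = 1
  · rw [hy, map_one]
  · exfalso
    obtain ⟨h, hh, h', hh', a, ha, h1⟩ := lift_alt y hy
    rw [h1] at hxH
    have h3 : a = h⁻¹ * (h * a * h') * h'⁻¹ := by group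
    exact halt a (h3 ▸ mul_mem (mul_mem (inv_mem hh) hxH) (inv_mem hh')) ha

theorem C_quot (hC : ClosedE C) (hgen : H ⊔ U = ⊤) (hKU : ∀ k ∈ K, ∀ u ∈ U, k * u * k⁻¹ ∈ U)
    (halt : ∀ w ∈ H, ¬ Alt H U K w) (hH : C H) [(NN H U K).Normal] : C (G ⧸ NN H U K) := by
  let f : H →* G ⧸ NN H U K := (QuotientGroup.mk' (NN H U K)).comp H.subtype
  have hf : Function.Bijective f := by
    constructor
    · rw [injective_iff_map_eq_one]
      intro h hh
      have h1 : (h : G) ∈ NN H U K := (QuotientGroup.eq_one_iff _).1 hh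
      exact Subtype.ext (NN_inf halt h1 h.2)
    · intro q
      obtain ⟨g, rfl⟩ := QuotientGroup.mk_surjective q
      obtain ⟨h, hh, n, hn, rfl⟩ := ex_dec hgen hKU g
      refine ⟨⟨h, hh⟩, ?_⟩
      show QuotientGroup.mk h = QuotientGroup.mk (h * n)
      rw [QuotientGroup.eq]
      simpa using hn
  exact C_equiv hC.base (MulEquiv.ofBijective f hf).symm hH

/-- **retract amalgams** -/
theorem amalg (hC : ClosedE C)
    (hF : ∀ (X : Type) (α : MulAut (FreeGroup X)),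
      C (FreeGroup X ⋊[zpowersHom (MulAut (FreeGroup X)) α] Multiplicative ℤ))
    (hgen : H ⊔ U = ⊤) (hKU : ∀ k ∈ K, ∀ u ∈ U, k * u * k⁻¹ ∈ U)
    (halt : ∀ w ∈ H, ¬ Alt H U K w)
    (hcyc : ∀ g : G, (∀ x, x ∈ U ↔ g * x * g⁻¹ ∈ U) → C ↥(U ⊔ Subgroup.zpowers g))
    (hH : C H) : C G := by
  have hN := NN_normal hgen hKU
  refine main_all hC hF (C_quot hC hgen hKU halt hH) (Au H U K) Set.univ (isFreeProd halt) ?_ ?_ ?_
  · intro i hi
    exact absurd (Set.mem_univ i) hi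
  · -- the permutation of the conjugacy classes
    intro q _ g
    obtain ⟨r, rfl⟩ := QuotientGroup.mk_surjective q
    obtain ⟨h, hh, n, hn, rfl⟩ := ex_dec hgen hKU g
    refine ⟨QuotientGroup.mk (⟨h, hh⟩ * r), Set.mem_univ _, h * n⁻¹ * h⁻¹,
      hN.conj_mem _ (inv_mem hn) h, fun x => ?_⟩
    rw [mem_Au_mk hKU, mem_Au_mk hKU]
    have h2 : ((⟨h, hh⟩ * r : H) : G)⁻¹ * (h * n⁻¹ * h⁻¹ * (h * n * x * (h * n)⁻¹) *
        (h * n⁻¹ * h⁻¹)⁻¹) * ((⟨h, hh⟩ * r : H) : G) = (r : G)⁻¹ * x * r := by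
      rw [Subgroup.coe_mul]
      group
    rw [h2]
  · -- the cyclic extensions of the factors
    intro q _ g hg
    obtain ⟨c, hc⟩ : ∃ c, c = rp H K q := ⟨_, rfl⟩
    have h1 : ∀ x, x ∈ U ↔ (c⁻¹ * g * c) * x * (c⁻¹ * g * c)⁻¹ ∈ U := by
      intro x
      have h2 := hg (c * x * c⁻¹)
      rw [mem_Au, mem_Au, ← hc] at h2
      have h3 : c⁻¹ * (c * x * c⁻¹) * c = x := by group
      have h4 : c⁻¹ * (g * (c * x * c⁻¹) * g⁻¹) * c = (c⁻¹ * g * c) * x * (c⁻¹ * g * c)⁻¹ := by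
        group
      rwa [h3, h4] at h2
    have h2 := hcyc _ h1
    have h3 : Au H U K q ⊔ Subgroup.zpowers g =
        (U ⊔ Subgroup.zpowers (c⁻¹ * g * c)).map (MulAut.conj c).toMonoidHom := by
      rw [Subgroup.map_sup, Au, ← hc, MonoidHom.map_zpowers]
      congr 2
      show g = c * (c⁻¹ * g * c) * c⁻¹
      group
    rw [h3]
    exact C_equiv hC.base ((U ⊔ Subgroup.zpowers (c⁻¹ * g * c)).equivMapOfInjective
      (MulAut.conj c).toMonoidHom (MulAut.conj c).injective).symm h2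

/-- an abelian subgroup and an element which normalizes it generate a metabelian group -/
theorem metab {G : Type} [Group G] (U : Subgroup G) (hU : ∀ a ∈ U, ∀ b ∈ U, a * b = b * a) (g : G)
    (hg : ∀ x, x ∈ U ↔ g * x * g⁻¹ ∈ U) : derivedSeries ↥(U ⊔ Subgroup.zpowers g) 2 = ⊥ := by
  obtain ⟨H, hH⟩ : ∃ H, H = U ⊔ Subgroup.zpowers g := ⟨_, rfl⟩
  rw [← hH]
  have hUH : U ≤ H := hH ▸ le_sup_left
  have hn : (U.subgroupOf H).Normal := by
    rw [← Subgroup.normalizer_eq_top_iff, eq_top_iff]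
    have h1 : H ≤ Subgroup.normalizer (U : Set G) := by
      rw [hH, sup_le_iff]
      refine ⟨Subgroup.le_normalizer, ?_⟩
      rw [Subgroup.zpowers_le, Subgroup.mem_normalizer_iff]
      exact hg
    rintro ⟨x, hx⟩ -
    rw [Subgroup.mem_normalizer_iff]
    intro y
    rw [Subgroup.mem_subgroupOf, Subgroup.mem_subgroupOf]
    exact Subgroup.mem_normalizer_iff.1 (h1 hx) y
  have hcomm : commutator H ≤ U.subgroupOf H := by
    have h1 : H ≤ (U.subgroupOf H ⊔ Subgroup.zpowers (⟨g, hH ▸ Subgroup.mem_sup_right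
        (Subgroup.mem_zpowers g)⟩ : H)).map H.subtype := by
      rw [Subgroup.map_sup, MonoidHom.map_zpowers, Subgroup.subgroupOf_map_subtype,
        inf_eq_left.2 hUH]
      exact hH.le
    have h2 : ∀ x : H, ∃ a ∈ U.subgroupOf H, ∃ k : ℤ, x = a * (⟨g, hH ▸ Subgroup.mem_sup_right
        (Subgroup.mem_zpowers g)⟩ : H) ^ k := by
      intro x
      obtain ⟨y, hy, hyx⟩ := h1 x.2
      obtain ⟨a, ha, b, hb, hab⟩ := Pool.Agent.R941.FJ.mem_sup_normal.1 hy
      obtain ⟨k, rfl⟩ := Subgroup.mem_zpowers_iff.1 hb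
      refine ⟨a, ha, k, ?_⟩
      rw [hab]
      exact (Subtype.ext hyx).symm
    rw [commutator_def, Subgroup.commutator_le]
    intro x _ y _
    obtain ⟨a, ha, k, rfl⟩ := h2 x
    obtain ⟨b, hb, l, rfl⟩ := h2 y
    rw [← QuotientGroup.eq_one_iff (N := U.subgroupOf H)]
    have ha1 : ((a : H) : H ⧸ U.subgroupOf H) = 1 := (QuotientGroup.eq_one_iff _).2 ha
    have hb1 : ((b : H) : H ⧸ U.subgroupOf H) = 1 := (QuotientGroup.eq_one_iff _).2 hb
    rw [commutatorElement_def]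
    simp only [QuotientGroup.mk_mul, QuotientGroup.mk_inv, QuotientGroup.mk_zpow, ha1, hb1, one_mul]
    group
  have h1 : derivedSeries H 1 = commutator H := derivedSeries_one H
  rw [derivedSeries_succ, h1, Subgroup.commutator_eq_bot_iff_le_centralizer]
  intro a ha
  rw [Subgroup.mem_centralizer_iff]
  intro b hb
  exact Subtype.ext (hU _ (hcomm hb) _ (hcomm ha))

end am

end Pool.Agent.U643.GE
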