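import Pool.Agent.U643.GE.Mat
import Mathlib.RingTheory.GradedAlgebra.Basic

/-!
# Graded domains
-/

set_option autoImplicit false

namespace Pool.Agent.U643.GE

open Pool.Agent.Y110.FJ Pool.Agent.R684.FP
open DirectSum

variable {C : ∀ (G : Type) [Group G], Prop}

section gr

variable {R : Type} [Ring R] (𝒜 : ℕ → AddSubgroup R) [GradedRing 𝒜]

/-- the homogeneous component -/
def cp (x : R) (n : ℕ) : R := (decompose 𝒜 x n : R)

theorem cp_add (x y : R) (n : ℕ) : cp 𝒜 (x + y) n = cp 𝒜 x n + cp 𝒜 y n := by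
  rw [cp, decompose_add, DirectSum.add_apply]
  rfl

theorem cp_zero (n : ℕ) : cp 𝒜 0 n = 0 := by
  rw [cp, decompose_zero, DirectSum.zero_apply]
  rfl

theorem cp_neg (x : R) (n : ℕ) : cp 𝒜 (-x) n = -cp 𝒜 x n := by
  rw [eq_neg_iff_add_eq_zero, ← cp_add, neg_add_cancel, cp_zero]

theorem cp_mul (x y : R) (n : ℕ) : cp 𝒜 (x * y) n =
    ∑ ij ∈ Finset.HasAntidiagonal.antidiagonal n, cp 𝒜 x ij.1 * cp 𝒜 y ij.2 := by
  rw [cp, decompose_mul, coe_mul_apply_eq_sum_antidiagonal]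
  rfl

theorem ext_cp {x : R} (h : ∀ n, cp 𝒜 x n = 0) : x = 0 := by
  classical
  rw [← sum_support_decompose 𝒜 x]
  exact Finset.sum_eq_zero fun n _ => h n

/-- bounded degree -/
def Dle (x : R) (n : ℕ) : Prop := ∀ k, n < k → cp 𝒜 x k = 0

theorem ex_Dle (x : R) : ∃ n, Dle 𝒜 x n := by
  classical
  refine ⟨(decompose 𝒜 x).support.sup id, fun k hk => ?_⟩
  by_contra h
  have h1 : k ∈ (decompose 𝒜 x).support := by
    rw [DFinsupp.mem_support_iff]
    intro h2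
    exact h (by rw [cp, h2]; rfl)
  exact absurd (Finset.le_sup (f := id) h1) (not_le_of_gt hk)

open Classical in
/-- the degree -/
noncomputable def deg (x : R) : ℕ := Nat.find (ex_Dle 𝒜 x)

theorem Dle_deg (x : R) : Dle 𝒜 x (deg 𝒜 x) := by
  classical
  exact Nat.find_spec (ex_Dle 𝒜 x)

theorem deg_le {x : R} {n : ℕ} (h : Dle 𝒜 x n) : deg 𝒜 x ≤ n := by
  classical
  exact Nat.find_min' (ex_Dle 𝒜 x) h

theorem cp_deg {x : R} (hx : x ≠ 0) : cp 𝒜 x (deg 𝒜 x) ≠ 0 := by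
  intro h
  rcases Nat.eq_zero_or_pos (deg 𝒜 x) with h0 | h0
  · refine hx (ext_cp 𝒜 fun n => ?_)
    rcases Nat.eq_zero_or_pos n with rfl | hn
    · rw [h0] at h
      exact h
    · exact Dle_deg 𝒜 x n (h0 ▸ hn)
  · have h1 : Dle 𝒜 x (deg 𝒜 x - 1) := by
      intro k hk
      rcases Nat.lt_or_ge (deg 𝒜 x) k with h2 | h2
      · exact Dle_deg 𝒜 x k h2
      · have h3 : k = deg 𝒜 x := by omega
        rw [h3]
        exact h
    have := deg_le 𝒜 h1
    omega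

theorem cp_mem {x : R} (n : ℕ) : cp 𝒜 x n ∈ 𝒜 n := (decompose 𝒜 x n).2

theorem cp_of_mem_zero {x : R} (hx : x ∈ 𝒜 0) : cp 𝒜 x 0 = x := decompose_of_mem_same 𝒜 hx

theorem deg_of_mem {x : R} (hx : x ∈ 𝒜 0) : deg 𝒜 x = 0 := by
  refine Nat.eq_zero_of_le_zero (deg_le 𝒜 fun k hk => ?_)
  exact decompose_of_mem_ne 𝒜 hx (by omega)

theorem mem_of_deg {x : R} (h : deg 𝒜 x = 0) : x ∈ 𝒜 0 := by
  have h1 : x - cp 𝒜 x 0 = 0 := by
    refine ext_cp 𝒜 fun n => ?_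
    rw [sub_eq_add_neg, cp_add, cp_neg]
    rcases Nat.eq_zero_or_pos n with rfl | hn
    · rw [cp_of_mem_zero 𝒜 (cp_mem 𝒜 0), add_neg_cancel]
    · rw [Dle_deg 𝒜 x n (h ▸ hn), zero_add]
      have h2 := deg_of_mem 𝒜 (cp_mem 𝒜 (x := x) 0)
      rw [Dle_deg 𝒜 (cp 𝒜 x 0) n (by rw [h2]; exact hn), neg_zero]
  rw [sub_eq_zero.1 h1]
  exact cp_mem 𝒜 0

theorem deg_mul [NoZeroDivisors R] {x y : R} (hx : x ≠ 0) (hy : y ≠ 0) :
    deg 𝒜 (x * y) = deg 𝒜 x + deg 𝒜 y := by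
  apply le_antisymm
  · refine deg_le 𝒜 fun k hk => ?_
    rw [cp_mul]
    refine Finset.sum_eq_zero fun ij hij => ?_
    rw [Finset.HasAntidiagonal.mem_antidiagonal] at hij
    rcases Nat.lt_or_ge (deg 𝒜 x) ij.1 with h1 | h1
    · rw [Dle_deg 𝒜 x _ h1, zero_mul]
    · rw [Dle_deg 𝒜 y ij.2 (by omega), mul_zero]
  · by_contra hlt
    have h1 := Dle_deg 𝒜 (x * y) (deg 𝒜 x + deg 𝒜 y) (not_le.1 hlt)
    rw [cp_mul, Finset.sum_eq_single (deg 𝒜 x, deg 𝒜 y)] at h1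
    · exact (mul_ne_zero (cp_deg 𝒜 hx) (cp_deg 𝒜 hy)) h1
    · intro ij hij hne
      rw [Finset.HasAntidiagonal.mem_antidiagonal] at hij
      rcases Nat.lt_or_ge (deg 𝒜 x) ij.1 with h2 | h2
      · rw [Dle_deg 𝒜 x _ h2, zero_mul]
      · rcases Nat.lt_or_ge (deg 𝒜 y) ij.2 with h3 | h3
        · rw [Dle_deg 𝒜 y _ h3, mul_zero]
        · exfalso
          apply hne
          ext
          · show ij.1 = deg 𝒜 x
            omega
          · show ij.2 = deg 𝒜 y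
            omega
    · intro h
      refine absurd ?_ h
      rw [Finset.HasAntidiagonal.mem_antidiagonal]

open Classical in
/-- the valuation -/
noncomputable def gval [NoZeroDivisors R] [Nontrivial R] :
    Valuation R (WithZero (Multiplicative ℤ)) where
  toFun x := if x = 0 then 0 else ((Multiplicative.ofAdd (deg 𝒜 x : ℤ) : Multiplicative ℤ) :
    WithZero (Multiplicative ℤ))
  map_zero' := by simp
  map_one' := by
    rw [if_neg one_ne_zero, deg_of_mem 𝒜 (SetLike.GradedOne.one_mem)]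
    rfl
  map_mul' x y := by
    by_cases hx : x = 0
    · simp [hx]
    by_cases hy : y = 0
    · simp [hy]
    rw [if_neg hx, if_neg hy, if_neg (mul_ne_zero hx hy), deg_mul 𝒜 hx hy, ← WithZero.coe_mul,
      ← ofAdd_add]
    push_cast
    rfl
  map_add_le_max' x y := by
    by_cases hx : x = 0
    · simp [hx]
    by_cases hy : y = 0
    · simp [hy]
    by_cases hxy : x + y = 0
    · simp [hxy]
    rw [if_neg hx, if_neg hy, if_neg hxy]
    have h1 : deg 𝒜 (x + y) ≤ max (deg 𝒜 x) (deg 𝒜 y) := by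
      refine deg_le 𝒜 fun k hk => ?_
      rw [cp_add, Dle_deg 𝒜 x k (lt_of_le_of_lt (le_max_left _ _) hk),
        Dle_deg 𝒜 y k (lt_of_le_of_lt (le_max_right _ _) hk), add_zero]
    rcases le_max_iff.1 h1 with h2 | h2
    · exact le_max_of_le_left (WithZero.coe_le_coe.2 (Multiplicative.ofAdd_le.2 (by exact_mod_cast h2)))
    · exact le_max_of_le_right (WithZero.coe_le_coe.2 (Multiplicative.ofAdd_le.2 (by exact_mod_cast h2)))

theorem gval_of_ne [NoZeroDivisors R] [Nontrivial R] {x : R} (hx : x ≠ 0) :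
    gval 𝒜 x = ((Multiplicative.ofAdd (deg 𝒜 x : ℤ) : Multiplicative ℤ) :
      WithZero (Multiplicative ℤ)) := if_neg hx

theorem one_coe : (1 : WithZero (Multiplicative ℤ)) = ((Multiplicative.ofAdd (0 : ℤ) :
    Multiplicative ℤ) : WithZero (Multiplicative ℤ)) := rfl

/-- **graded domains** -/
theorem graded (hC : ClosedE C)
    (hF : ∀ (X : Type) (α : MulAut (FreeGroup X)),
      C (FreeGroup X ⋊[zpowersHom (MulAut (FreeGroup X)) α] Multiplicative ℤ))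
    (hmet : ∀ (S : Type) [Group S], derivedSeries S 2 = ⊥ → C S)
    [NoZeroDivisors R] [Nontrivial R] (A : Subring R) (hA : ∀ x, x ∈ A ↔ x ∈ 𝒜 0) :
    (C (E2 R) ↔ C (E2 A)) ∧ (C (GE2 R) ↔ C (GE2 A)) ∧
    ∀ H : Subgroup (GL2 A), E2 A ≤ H → (C ↥(H.map (mp A.subtype) ⊔ E2 R) ↔ C H) := by
  have hzero : ∀ x y, cp 𝒜 (x * y) 0 = cp 𝒜 x 0 * cp 𝒜 y 0 := by
    intro x y
    rw [cp_mul]
    simp
  refine fil_E hC hF hmet (gval 𝒜) A.subtype_injective ?_ ?_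
    { carrier := {x | cp 𝒜 x 0 = 0}
      zero_mem' := cp_zero 𝒜 0
      add_mem' := fun {x y} hx hy => by
        show cp 𝒜 (x + y) 0 = 0
        rw [cp_add]
        have h1 : cp 𝒜 x 0 = 0 := hx
        have h2 : cp 𝒜 y 0 = 0 := hy
        rw [h1, h2, add_zero]
      neg_mem' := fun {x} hx => by
        show cp 𝒜 (-x) 0 = 0
        rw [cp_neg]
        have h1 : cp 𝒜 x 0 = 0 := hx
        rw [h1, neg_zero] } ?_ ?_ ?_ ?_
  · intro x hx
    rw [gval_of_ne 𝒜 hx, one_coe]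
    exact WithZero.coe_le_coe.2 (Multiplicative.ofAdd_le.2 (by positivity))
  · intro x
    constructor
    · intro h
      by_cases hx : x = 0
      · exact ⟨0, by rw [map_zero, hx]⟩
      · rw [gval_of_ne 𝒜 hx, one_coe, WithZero.coe_le_coe, Multiplicative.ofAdd_le] at h
        refine ⟨⟨x, (hA x).2 (mem_of_deg 𝒜 (by omega))⟩, rfl⟩
    · rintro ⟨a, rfl⟩
      by_cases hx : (a : R) = 0
      · show gval 𝒜 (a : R) ≤ 1
        rw [hx, map_zero]
        exact zero_le_one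
      · show gval 𝒜 (a : R) ≤ 1
        rw [gval_of_ne 𝒜 hx, one_coe, deg_of_mem 𝒜 ((hA _).1 a.2)]
        exact le_rfl
  · intro a r hr
    show cp 𝒜 ((a : R) * r) 0 = 0
    have h1 : cp 𝒜 r 0 = 0 := hr
    rw [hzero, h1, mul_zero]
  · intro a r hr
    show cp 𝒜 (r * (a : R)) 0 = 0
    have h1 : cp 𝒜 r 0 = 0 := hr
    rw [hzero, h1, zero_mul]
  · intro a ha
    have h1 : cp 𝒜 (a : R) 0 = 0 := ha
    rw [cp_of_mem_zero 𝒜 ((hA _).1 a.2)] at h1
    exact Subtype.ext h1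
  · intro x
    refine ⟨⟨cp 𝒜 x 0, (hA _).2 (cp_mem 𝒜 0)⟩, x - cp 𝒜 x 0, ?_, ?_⟩
    · show cp 𝒜 (x - cp 𝒜 x 0) 0 = 0
      rw [sub_eq_add_neg, cp_add, cp_neg, cp_of_mem_zero 𝒜 (cp_mem 𝒜 0), add_neg_cancel]
    · show x = cp 𝒜 x 0 + (x - cp 𝒜 x 0)
      abel

end gr

end Pool.Agent.U643.GE
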