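import Pool.Agent.U643.GE.Amalg

/-!
# Groups of 2 × 2 matrices over rings with a valuation
-/

set_option autoImplicit false

namespace Pool.Agent.U643.GE

open Pool.Agent.Y110.FJ Pool.Agent.R684.FP
open Pool.Agent.R941.FJ (C_equiv C_le)

variable {C : ∀ (G : Type) [Group G], Prop}

/-- the group `GL₂(R)` -/
abbrev GL2 (R : Type) [Ring R] : Type := (Matrix (Fin 2) (Fin 2) R)ˣ

section mat

variable {R : Type} [Ring R]

/-- the upper elementary matrices -/
def up (r : R) : GL2 R where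
  val := !![1, r; 0, 1]
  inv := !![1, -r; 0, 1]
  val_inv := by
    rw [Matrix.mul_fin_two, Matrix.one_fin_two]
    simp
  inv_val := by
    rw [Matrix.mul_fin_two, Matrix.one_fin_two]
    simp

/-- the lower elementary matrices -/
def lo (r : R) : GL2 R where
  val := !![1, 0; r, 1]
  inv := !![1, 0; -r, 1]
  val_inv := by
    rw [Matrix.mul_fin_two, Matrix.one_fin_two]
    simp
  inv_val := by
    rw [Matrix.mul_fin_two, Matrix.one_fin_two]
    simp

/-- the invertible diagonal matrices -/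
def dg (a b : Rˣ) : GL2 R where
  val := !![(a : R), 0; 0, (b : R)]
  inv := !![((a⁻¹ : Rˣ) : R), 0; 0, ((b⁻¹ : Rˣ) : R)]
  val_inv := by
    rw [Matrix.mul_fin_two, Matrix.one_fin_two]
    simp
  inv_val := by
    rw [Matrix.mul_fin_two, Matrix.one_fin_two]
    simp

theorem up_val (r : R) : (up r).val = !![1, r; 0, 1] := rfl
theorem lo_val (r : R) : (lo r).val = !![1, 0; r, 1] := rfl
theorem dg_val (a b : Rˣ) : (dg a b).val = !![(a : R), 0; 0, (b : R)] := rfl

theorem up_zero : up (0 : R) = 1 := by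
  apply Units.ext
  rw [up_val, Units.val_one, Matrix.one_fin_two]

theorem up_mul (r s : R) : up r * up s = up (r + s) := by
  apply Units.ext
  rw [Units.val_mul, up_val, up_val, up_val, Matrix.mul_fin_two]
  simp [add_comm]

theorem up_inv (r : R) : (up r)⁻¹ = up (-r) := by
  rw [inv_eq_iff_mul_eq_one, up_mul, add_neg_cancel, up_zero]

theorem up_inj {r s : R} (h : up r = up s) : r = s := by
  have h1 : (up r).val 0 1 = (up s).val 0 1 := by rw [h]
  simpa [up_val] using h1

/-- the elementary matrices with entry in an additive subgroup -/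
def UI (I : AddSubgroup R) : Subgroup (GL2 R) where
  carrier := {g | ∃ r ∈ I, g = up r}
  one_mem' := ⟨0, I.zero_mem, up_zero.symm⟩
  mul_mem' := by
    rintro _ _ ⟨r, hr, rfl⟩ ⟨s, hs, rfl⟩
    exact ⟨r + s, I.add_mem hr hs, up_mul r s⟩
  inv_mem' := by
    rintro _ ⟨r, hr, rfl⟩
    exact ⟨-r, I.neg_mem hr, up_inv r⟩

theorem mem_UI {I : AddSubgroup R} {g : GL2 R} : g ∈ UI I ↔ ∃ r ∈ I, g = up r := Iff.rfl

variable {Γ₀ : Type} [LinearOrderedCommGroupWithZero Γ₀] (v : Valuation R Γ₀)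

/-- the upper triangular elements of `H` -/
def KH (H : Subgroup (GL2 R)) : Subgroup (GL2 R) where
  carrier := {h | h ∈ H ∧ h.val 1 0 = 0 ∧ (h⁻¹).val 1 0 = 0}
  one_mem' := ⟨one_mem _, by simp, by simp⟩
  mul_mem' := by
    rintro a b ⟨h1, h2, h3⟩ ⟨h4, h5, h6⟩
    refine ⟨mul_mem h1 h4, ?_, ?_⟩
    · rw [Units.val_mul, Matrix.mul_apply, Fin.sum_univ_two, h2, h5]
      simp
    · rw [mul_inv_rev, Units.val_mul, Matrix.mul_apply, Fin.sum_univ_two, h3, h6]
      simp
  inv_mem' := by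
    rintro a ⟨h1, h2, h3⟩
    refine ⟨inv_mem h1, h3, ?_⟩
    rw [inv_inv]
    exact h2

include v in
theorem mem_KH (hv : ∀ x, v x = 0 → x = 0) {H : Subgroup (GL2 R)} {h : GL2 R} :
    h ∈ KH H ↔ h ∈ H ∧ h.val 1 0 = 0 := by
  refine ⟨fun h1 => ⟨h1.1, h1.2.1⟩, fun h1 => ⟨h1.1, h1.2, ?_⟩⟩
  have h2 : ((h⁻¹).val * h.val) 0 0 = 1 := by rw [Units.inv_mul]; simp
  have h3 : ((h⁻¹).val * h.val) 1 0 = 0 := by rw [Units.inv_mul]; simp
  rw [Matrix.mul_apply, Fin.sum_univ_two, h1.2, mul_zero, add_zero] at h2 h3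
  have h4 : v (h.val 0 0) ≠ 0 := by
    intro h5
    have h6 := congrArg v h2
    rw [map_mul, h5, mul_zero, map_one] at h6
    exact zero_ne_one h6
  have h5 := congrArg v h3
  rw [map_mul, map_zero, mul_eq_zero] at h5
  exact hv _ (h5.resolve_right h4)

/-- ping-pong -/
theorem ping (H : Subgroup (GL2 R)) (I : AddSubgroup R) (hv : ∀ x, v x = 0 → x = 0)
    (hH : ∀ h ∈ H, ∀ i j, v (h.val i j) ≤ 1)
    (hc : ∀ h ∈ H, h.val 1 0 = 0 ∨ v (h.val 1 0) = 1)
    (hI : ∀ r ∈ I, r ≠ 0 → 1 < v r) {w : GL2 R} (hw : Alt H (UI I) (KH H) w) :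
    ∀ x y : R, 1 ≤ v x → v y ≤ v x →
      v (x * w.val 0 0 + y * w.val 1 0) < v (x * w.val 0 1 + y * w.val 1 1) ∧
      1 < v (x * w.val 0 1 + y * w.val 1 1) := by
  induction hw with
  | single u hu hne =>
    intro x y hx hy
    obtain ⟨r, hr, rfl⟩ := hu
    have hr0 : r ≠ 0 := by
      rintro rfl
      exact hne up_zero
    have h1 := hI r hr hr0
    have hx0 : 0 < v x := lt_of_lt_of_le zero_lt_one hx
    have h2 : v x < v (x * r) := by
      rw [map_mul]
      exact lt_mul_of_one_lt_right hx0 h1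
    have h3 : v (x * r + y) = v (x * r) := v.map_add_eq_of_lt_left (lt_of_le_of_lt hy h2)
    rw [up_val]
    simp only [Matrix.of_apply, Matrix.cons_val', Matrix.cons_val_zero, Matrix.cons_val_one,
      Matrix.cons_val_fin_one, mul_one, mul_zero, add_zero]
    rw [h3]
    exact ⟨h2, lt_of_le_of_lt hx h2⟩
  | app w h w' _ hh hk _ ih ih' =>
    intro x y hx hy
    obtain ⟨h1, h2⟩ := ih x y hx hy
    have e : ∀ j, x * (w * h * w').val 0 j + y * (w * h * w').val 1 j =
        ((x * w.val 0 0 + y * w.val 1 0) * h.val 0 0 + (x * w.val 0 1 + y * w.val 1 1) * h.val 1 0)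
          * w'.val 0 j +
        ((x * w.val 0 0 + y * w.val 1 0) * h.val 0 1 + (x * w.val 0 1 + y * w.val 1 1) * h.val 1 1)
          * w'.val 1 j := by
      intro j
      simp only [Units.val_mul, Matrix.mul_apply, Fin.sum_univ_two]
      noncomm_ring
    rw [e, e]
    have hk' : h.val 1 0 ≠ 0 := fun h0 => hk ((mem_KH v hv).2 ⟨hh, h0⟩)
    have hc' : v (h.val 1 0) = 1 := (hc h hh).resolve_left hk'
    have h3 : v ((x * w.val 0 0 + y * w.val 1 0) * h.val 0 0) <
        v ((x * w.val 0 1 + y * w.val 1 1) * h.val 1 0) := by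
      rw [map_mul, map_mul, hc', mul_one]
      refine lt_of_le_of_lt ?_ h1
      exact mul_le_of_le_one_right' (hH h hh 0 0)
    have h4 : v ((x * w.val 0 0 + y * w.val 1 0) * h.val 0 0 +
        (x * w.val 0 1 + y * w.val 1 1) * h.val 1 0) = v (x * w.val 0 1 + y * w.val 1 1) := by
      rw [v.map_add_eq_of_lt_right h3, map_mul, hc', mul_one]
    refine ih' _ _ ?_ ?_
    · rw [h4]
      exact h2.le
    · rw [h4]
      refine v.map_add_le ?_ ?_
      · rw [map_mul]
        exact (mul_le_of_le_one_right' (hH h hh 0 1)).trans h1.le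
      · rw [map_mul]
        exact mul_le_of_le_one_right' (hH h hh 1 1)

/-- alternating products in a subgroup -/
theorem alt_val {G : Type} [Group G] {H U K S : Subgroup G} {w : S}
    (h : Alt (H.subgroupOf S) (U.subgroupOf S) (K.subgroupOf S) w) : Alt H U K (w : G) := by
  induction h with
  | single u hu hne =>
    refine Alt.single _ hu fun h => hne (Subtype.ext h)
  | app w h w' _ hh hk _ ih ih' =>
    exact Alt.app _ _ _ ih hh hk ih'

/-- **groups generated by `H` and elementary matrices** -/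
theorem val_main (hC : ClosedE C)
    (hF : ∀ (X : Type) (α : MulAut (FreeGroup X)),
      C (FreeGroup X ⋊[zpowersHom (MulAut (FreeGroup X)) α] Multiplicative ℤ))
    (hmet : ∀ (S : Type) [Group S], derivedSeries S 2 = ⊥ → C S)
    (H : Subgroup (GL2 R)) (I : AddSubgroup R) (hv : ∀ x, v x = 0 → x = 0)
    (hH : ∀ h ∈ H, ∀ i j, v (h.val i j) ≤ 1)
    (hc : ∀ h ∈ H, h.val 1 0 = 0 ∨ v (h.val 1 0) = 1)
    (hI : ∀ r ∈ I, r ≠ 0 → 1 < v r)
    (hK : ∀ h ∈ H, h.val 1 0 = 0 → ∀ r ∈ I, ∃ s ∈ I, h.val 0 0 * r = s * h.val 1 1)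
    (hHC : C H) : C ↥(H ⊔ UI I) := by
  obtain ⟨S, hS⟩ : ∃ S, S = H ⊔ UI I := ⟨_, rfl⟩
  rw [← hS]
  have hHS : H ≤ S := hS ▸ le_sup_left
  have hUS : UI I ≤ S := hS ▸ le_sup_right
  refine amalg (H := H.subgroupOf S) (U := (UI I).subgroupOf S) (K := (KH H).subgroupOf S)
    hC hF ?_ ?_ ?_ ?_ ?_
  · rw [eq_top_iff]
    intro x _
    have h1 : (x : GL2 R) ∈ (H.subgroupOf S ⊔ (UI I).subgroupOf S).map S.subtype := by
      rw [Subgroup.map_sup, Subgroup.subgroupOf_map_subtype, Subgroup.subgroupOf_map_subtype,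
        inf_eq_left.2 hHS, inf_eq_left.2 hUS, ← hS]
      exact x.2
    obtain ⟨y, hy, hyx⟩ := h1
    have h2 : y = x := Subtype.ext hyx
    exact h2 ▸ hy
  · rintro k hk u hu
    obtain ⟨hkH, hk0⟩ := (mem_KH v hv).1 (Subgroup.mem_subgroupOf.1 hk)
    obtain ⟨r, hr, hur⟩ := Subgroup.mem_subgroupOf.1 hu
    obtain ⟨s, hs, hrs⟩ := hK _ hkH hk0 r hr
    refine Subgroup.mem_subgroupOf.2 ⟨s, hs, ?_⟩
    show (k : GL2 R) * (u : GL2 R) * (k : GL2 R)⁻¹ = up s
    rw [hur, mul_inv_eq_iff_eq_mul]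
    apply Units.ext
    rw [Units.val_mul, Units.val_mul, up_val, up_val]
    ext i j
    fin_cases i <;> fin_cases j
    · simp [Matrix.mul_apply, Fin.sum_univ_two, hk0]
    · simp [Matrix.mul_apply, Fin.sum_univ_two, hrs, add_comm]
    · simp [Matrix.mul_apply, Fin.sum_univ_two]
    · simp [Matrix.mul_apply, Fin.sum_univ_two, hk0]
  · intro w hw halt
    have hw' : (w : GL2 R) ∈ H := Subgroup.mem_subgroupOf.1 hw
    obtain ⟨-, h2⟩ := ping v H I hv hH hc hI (alt_val halt) 1 0 (by rw [map_one])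
      (by rw [map_zero, map_one]; exact zero_le_one)
    rw [one_mul, zero_mul, add_zero] at h2
    exact absurd h2 (not_lt_of_ge (hH _ hw' 0 1))
  · intro g hg
    refine hmet _ (metab _ ?_ g hg)
    intro a ha b hb
    obtain ⟨r, _, har⟩ := Subgroup.mem_subgroupOf.1 ha
    obtain ⟨s, _, hbs⟩ := Subgroup.mem_subgroupOf.1 hb
    apply Subtype.ext
    show (a : GL2 R) * b = b * a
    rw [har, hbs, up_mul, up_mul, add_comm]
  · exact C_equiv hC.base (Subgroup.subgroupOfEquivOfLe hHS) hHC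

end mat

section el

/-- the group `E₂(R)` -/
def E2 (R : Type) [Ring R] : Subgroup (GL2 R) :=
  Subgroup.closure (Set.range up ∪ Set.range lo)

/-- the group `GE₂(R)` -/
def GE2 (R : Type) [Ring R] : Subgroup (GL2 R) :=
  Subgroup.closure (Set.range up ∪ Set.range lo ∪ Set.range fun p : Rˣ × Rˣ => dg p.1 p.2)

variable {A R : Type} [Ring A] [Ring R] (f : A →+* R)

/-- the homomorphism of the matrix groups -/
def mp : GL2 A →* GL2 R :=
  Units.map (f.mapMatrix (m := Fin 2)).toMonoidHom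

theorem mp_val (g : GL2 A) (i j : Fin 2) : (mp f g).val i j = f (g.val i j) := rfl

theorem mp_up (r : A) : mp f (up r) = up (f r) := by
  apply Units.ext
  ext i j
  rw [mp_val, up_val, up_val]
  fin_cases i <;> fin_cases j <;> simp

theorem mp_lo (r : A) : mp f (lo r) = lo (f r) := by
  apply Units.ext
  ext i j
  rw [mp_val, lo_val, lo_val]
  fin_cases i <;> fin_cases j <;> simp

theorem mp_dg (a b : Aˣ) : mp f (dg a b) = dg (Units.map (f : A →* R) a) (Units.map (f : A →* R) b) := by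
  apply Units.ext
  ext i j
  rw [mp_val, dg_val, dg_val]
  fin_cases i <;> fin_cases j <;> simp

variable {f}

theorem mp_inj (hf : Function.Injective f) : Function.Injective (mp f) := by
  intro g h hgh
  apply Units.ext
  ext i j
  apply hf
  rw [← mp_val, ← mp_val, hgh]

theorem mp_E2 : (E2 A).map (mp f) ≤ E2 R := by
  rw [E2, MonoidHom.map_closure, Subgroup.closure_le]
  rintro _ ⟨_, (⟨r, rfl⟩ | ⟨r, rfl⟩), rfl⟩
  · rw [mp_up]
    exact Subgroup.subset_closure (Or.inl ⟨_, rfl⟩)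
  · rw [mp_lo]
    exact Subgroup.subset_closure (Or.inr ⟨_, rfl⟩)

/-- the Weyl element -/
theorem lo_conj (r : R) : lo r = (up (1 : R) * lo (-1) * up 1)⁻¹ * up (-r) *
    (up (1 : R) * lo (-1) * up 1) := by
  rw [mul_assoc, eq_inv_mul_iff_mul_eq]
  apply Units.ext
  simp only [Units.val_mul, up_val, lo_val, Matrix.mul_fin_two]
  simp

/-- **graded and filtered rings**: the general subgroup -/
theorem fil_main (hC : ClosedE C)
    (hF : ∀ (X : Type) (α : MulAut (FreeGroup X)),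
      C (FreeGroup X ⋊[zpowersHom (MulAut (FreeGroup X)) α] Multiplicative ℤ))
    (hmet : ∀ (S : Type) [Group S], derivedSeries S 2 = ⊥ → C S)
    {Γ₀ : Type} [LinearOrderedCommGroupWithZero Γ₀] (v : Valuation R Γ₀)
    (hf : Function.Injective f)
    (hv : ∀ x, x ≠ 0 → 1 ≤ v x) (hfa : ∀ a, v (f a) ≤ 1)
    (I : AddSubgroup R) (hIl : ∀ a, ∀ r ∈ I, f a * r ∈ I) (hIr : ∀ a, ∀ r ∈ I, r * f a ∈ I)
    (hI : ∀ r ∈ I, r ≠ 0 → 1 < v r) (hdec : ∀ x : R, ∃ a, ∃ r ∈ I, x = f a + r)
    (H : Subgroup (GL2 A)) (hEH : E2 A ≤ H) : C ↥(H.map (mp f) ⊔ E2 R) ↔ C H := by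
  have h0 : ∀ x, v x = 0 → x = 0 := by
    intro x hx
    by_contra hne
    have h1 := hv x hne
    rw [hx] at h1
    exact absurd h1 (not_le_of_gt zero_lt_one)
  have hgen : H.map (mp f) ⊔ E2 R = H.map (mp f) ⊔ UI I := by
    apply le_antisymm
    · refine sup_le le_sup_left ?_
      have hup : ∀ x : R, up x ∈ H.map (mp f) ⊔ UI I := by
        intro x
        obtain ⟨a, r, hr, rfl⟩ := hdec x
        rw [← up_mul]
        refine mul_mem (Subgroup.mem_sup_left ⟨up a, hEH (Subgroup.subset_closure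
          (Or.inl ⟨_, rfl⟩)), mp_up f a⟩) (Subgroup.mem_sup_right ⟨r, hr, rfl⟩)
      have hlo : lo (-1 : R) ∈ H.map (mp f) ⊔ UI I := by
        refine Subgroup.mem_sup_left ⟨lo (-1), hEH (Subgroup.subset_closure (Or.inr ⟨_, rfl⟩)), ?_⟩
        rw [mp_lo, map_neg, map_one]
      rw [E2, Subgroup.closure_le]
      rintro _ (⟨x, rfl⟩ | ⟨x, rfl⟩)
      · exact hup x
      · rw [lo_conj]
        have h1 : up (1 : R) * lo (-1) * up 1 ∈ H.map (mp f) ⊔ UI I :=
          mul_mem (mul_mem (hup 1) hlo) (hup 1)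
        exact mul_mem (mul_mem (inv_mem h1) (hup (-x))) h1
    · refine sup_le le_sup_left (le_trans ?_ le_sup_right)
      rintro _ ⟨r, _, rfl⟩
      exact Subgroup.subset_closure (Or.inl ⟨_, rfl⟩)
  constructor
  · intro h
    refine hC.base.of_injective _ _ ((Subgroup.inclusion (le_sup_left :
      H.map (mp f) ≤ H.map (mp f) ⊔ E2 R)).comp
        (H.equivMapOfInjective (mp f) (mp_inj hf)).toMonoidHom) ?_ h
    exact (Subgroup.inclusion_injective (le_sup_left :
      H.map (mp f) ≤ H.map (mp f) ⊔ E2 R)).comp (MulEquiv.injective _)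
  · intro h
    rw [hgen]
    refine val_main v hC hF hmet (H.map (mp f)) I h0 ?_ ?_ hI ?_ ?_
    · rintro _ ⟨g, _, rfl⟩ i j
      rw [mp_val]
      exact hfa _
    · rintro _ ⟨g, _, rfl⟩
      rw [mp_val]
      by_cases h1 : f (g.val 1 0) = 0
      · exact Or.inl h1
      · exact Or.inr (le_antisymm (hfa _) (hv _ h1))
    · rintro _ ⟨g, _, rfl⟩ hg r hr
      -- the inverse of the lower right entry
      rw [mp_val] at hg ⊢
      rw [mp_val]
      have hg0 : g.val 1 0 = 0 := hf (by rw [hg, map_zero])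
      have h2 : (g.val * (g⁻¹).val) 1 1 = 1 := by rw [Units.mul_inv]; simp
      rw [Matrix.mul_apply, Fin.sum_univ_two, hg0, zero_mul, zero_add] at h2
      have h3 : ((g⁻¹).val * g.val) 1 1 = 1 := by rw [Units.inv_mul]; simp
      have h4 : ((g⁻¹).val) 1 1 * g.val 1 1 = 1 := by
        -- one-sided inverses are two-sided in a domain
        have h5 : f (g.val 1 1) * (f ((g⁻¹).val 1 1) * f (g.val 1 1) - 1) = 0 := by
          rw [mul_sub, ← mul_assoc, ← map_mul, h2, map_one, one_mul, mul_one, sub_self]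
        have h6 := congrArg v h5
        rw [map_mul, map_zero, mul_eq_zero] at h6
        rcases h6 with h6 | h6
        · exfalso
          have h7 := h0 _ h6
          have h8 : f (g.val 1 1) * f ((g⁻¹).val 1 1) = 1 := by rw [← map_mul, h2, map_one]
          rw [h7, zero_mul] at h8
          have h9 := congrArg v h8
          rw [map_zero, map_one] at h9
          exact zero_ne_one h9
        · have h7 := h0 _ h6
          apply hf
          rw [map_mul, map_one]
          exact sub_eq_zero.1 h7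
      refine ⟨f (g.val 0 0) * r * f ((g⁻¹).val 1 1), hIr _ _ (hIl _ _ hr), ?_⟩
      rw [mul_assoc _ (f _) (f _), ← map_mul, h4, map_one, mul_one]
    · exact C_equiv hC.base (H.equivMapOfInjective (mp f) (mp_inj hf)).symm h

/-- `E₂` and `GE₂` -/
theorem fil_E (hC : ClosedE C)
    (hF : ∀ (X : Type) (α : MulAut (FreeGroup X)),
      C (FreeGroup X ⋊[zpowersHom (MulAut (FreeGroup X)) α] Multiplicative ℤ))
    (hmet : ∀ (S : Type) [Group S], derivedSeries S 2 = ⊥ → C S)
    {Γ₀ : Type} [LinearOrderedCommGroupWithZero Γ₀] (v : Valuation R Γ₀)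
    (hf : Function.Injective f)
    (hv : ∀ x, x ≠ 0 → 1 ≤ v x) (hfa : ∀ x, v x ≤ 1 ↔ ∃ a, f a = x)
    (I : AddSubgroup R) (hIl : ∀ a, ∀ r ∈ I, f a * r ∈ I) (hIr : ∀ a, ∀ r ∈ I, r * f a ∈ I)
    (hI : ∀ a, f a ∈ I → a = 0) (hdec : ∀ x : R, ∃ a, ∃ r ∈ I, x = f a + r) :
    (C (E2 R) ↔ C (E2 A)) ∧ (C (GE2 R) ↔ C (GE2 A)) ∧
    ∀ H : Subgroup (GL2 A), E2 A ≤ H → (C ↥(H.map (mp f) ⊔ E2 R) ↔ C H) := by
  have hI' : ∀ r ∈ I, r ≠ 0 → 1 < v r := by
    intro r hr hr0
    by_contra h1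
    obtain ⟨a, rfl⟩ := (hfa r).1 (not_lt.1 h1)
    exact hr0 (by rw [hI a hr, map_zero])
  have key := fil_main hC hF hmet v hf hv (fun a => (hfa _).2 ⟨a, rfl⟩) I hIl hIr hI' hdec
  refine ⟨?_, ?_, key⟩
  · have h1 := key (E2 A) le_rfl
    rwa [sup_eq_right.2 (mp_E2 (f := f))] at h1
  · have h1 := key (GE2 A) (Subgroup.closure_mono Set.subset_union_left)
    have h2 : (GE2 A).map (mp f) ⊔ E2 R = GE2 R := by
      apply le_antisymm
      · refine sup_le ?_ (Subgroup.closure_mono Set.subset_union_left)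
        rw [GE2, MonoidHom.map_closure, Subgroup.closure_le]
        rintro _ ⟨_, ((⟨r, rfl⟩ | ⟨r, rfl⟩) | ⟨p, rfl⟩), rfl⟩
        · rw [mp_up]
          exact Subgroup.subset_closure (Or.inl (Or.inl ⟨_, rfl⟩))
        · rw [mp_lo]
          exact Subgroup.subset_closure (Or.inl (Or.inr ⟨_, rfl⟩))
        · rw [mp_dg]
          exact Subgroup.subset_closure (Or.inr ⟨(_, _), rfl⟩)
      · rw [GE2, Subgroup.closure_le]
        rintro _ ((⟨r, rfl⟩ | ⟨r, rfl⟩) | ⟨⟨a, b⟩, rfl⟩)
        · exact Subgroup.mem_sup_right (Subgroup.subset_closure (Or.inl ⟨_, rfl⟩))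
        · exact Subgroup.mem_sup_right (Subgroup.subset_closure (Or.inr ⟨_, rfl⟩))
        · -- units come from `A`
          have hu : ∀ u : Rˣ, ∃ a : Aˣ, Units.map (f : A →* R) a = u := by
            intro u
            have hle : ∀ w : Rˣ, v (w : R) ≤ 1 := by
              intro w
              have hne : ∀ z : Rˣ, v (z : R) ≠ 0 := by
                intro z hz
                have h3 := congrArg v (Units.mul_inv z)
                rw [map_mul, hz, zero_mul, map_one] at h3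
                exact zero_ne_one h3
              have h4 : 1 ≤ v ((w⁻¹ : Rˣ) : R) := hv _ fun h => hne w⁻¹ (by rw [h, map_zero])
              have h5 := congrArg v (Units.mul_inv w)
              rw [map_mul, map_one] at h5
              calc v (w : R) = v (w : R) * 1 := (mul_one _).symm
                _ ≤ v (w : R) * v ((w⁻¹ : Rˣ) : R) := mul_le_mul_right h4 _
                _ = 1 := h5
            obtain ⟨a, ha⟩ := (hfa _).1 (hle u)
            obtain ⟨b, hb⟩ := (hfa _).1 (hle u⁻¹)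
            refine ⟨⟨a, b, hf ?_, hf ?_⟩, Units.ext ha⟩
            · rw [map_mul, ha, hb, map_one, Units.mul_inv]
            · rw [map_mul, ha, hb, map_one, Units.inv_mul]
          obtain ⟨a, rfl⟩ := hu a
          obtain ⟨b, rfl⟩ := hu b
          refine Subgroup.mem_sup_left ⟨dg a b, Subgroup.subset_closure (Or.inr ⟨(a, b), rfl⟩), ?_⟩
          exact mp_dg f a b
    rwa [h2] at h1

end el

end Pool.Agent.U643.GE
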